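import Pool.Agent.H71.FX.Targets3
import Pool.Agent.H8.PL.All

/-!
# Row HF
-/

set_option autoImplicit false

namespace Pool.Agent.H71.FX

open Pool.Agent.H8.PL Pool.Agent.H71.PF Pool.Agent.H69.Sp

/-- from squares to powers -/
theorem sq_pow {S : Set ℕ} (hS : IsSpectrum S) : ∃ (r : ℕ) (Q : Type)
    (U : Bool → Bool → Bool → Bool → Q → Prop) (Hh Vv : Q → Q → Prop), 0 < r ∧ Finite Q ∧
      (∀ W H, 0 < W → 0 < H → (∃ t, GridF U Hh Vv W H t) → ∃ m ∈ S, ∀ ℓ, ℓ * (W * H) =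
        ℓ * m ^ (2 * r)) ∧
      ∀ m ∈ S, ∃ t, GridF U Hh Vv (m ^ r) (m ^ r) t ∧ 0 < m ^ r ∧ m ^ r ≤ 2 ^ m ^ r := by
  obtain ⟨r, Q, U, Hh, Vv, hr, hQ, hgrid⟩ := z_sq S hS
  have hpos : ∀ m ∈ S, 0 < m := by
    obtain ⟨L, _, _, φ, rfl⟩ := hS
    exact fun m hm => hm.1
  refine ⟨r, Q, U, Hh, Vv, hr, hQ, fun W H hW hH h => ?_, fun m hm => ?_⟩
  · obtain ⟨m, hm, rfl, rfl⟩ := (hgrid W H hW hH).1 h
    refine ⟨m, hm, fun ℓ => ?_⟩
    rw [two_mul, pow_add]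
  · have hp : 0 < m ^ r := Nat.pow_pos (hpos m hm)
    obtain ⟨t, ht⟩ := (hgrid _ _ hp hp).2 ⟨m, hm, rfl, rfl⟩
    exact ⟨t, ht, hp, Nat.lt_two_pow_self.le⟩

theorem pf_HF (ea : T_EA) (aa : T_AA) (s1 : T_S1) (s2 : T_S2) (s3 : T_S3) (vm : T_VM)
    (fw : T_FW) : T_HF := by
  intro F ρ hF h0 hρ S hS
  obtain ⟨r, Q, U, Hh, Vv, hr, hQ, h1, h2⟩ := sq_pow hS
  have e2 : ∀ ℓ m : ℕ, ℓ * (m ^ r * m ^ r) = ℓ * m ^ (2 * r) := fun ℓ m => by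
    rw [two_mul, pow_add]
  rcases hρ with rfl | rfl
  · obtain ⟨φ, ℓ, hℓ, a1, a2⟩ := ea Q U Hh Vv
    rcases fw F hF h0 with ⟨i, j, hij, hi, hj⟩ | ⟨i, k, hk, hi⟩
    · obtain ⟨ψ, c1, c2, c3⟩ := s1 φ i j hij
      refine ⟨ψ, ℓ, 2 * r, c1, vm _ F 0 0 ψ ?_ le_rfl c2, hℓ, by omega, ?_⟩
      · rintro a b ⟨rfl | rfl, rfl⟩
        · exact hi
        · exact hj
      · ext n
        rw [(c3 n).1]
        constructor
        · rintro ⟨hn, h⟩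
          obtain ⟨W, H, hW, hH, rfl, ht⟩ := a1 n hn h
          obtain ⟨m, hm, e⟩ := h1 W H hW hH ht
          exact ⟨m, hm, (e ℓ).symm⟩
        · rintro ⟨m, hm, rfl⟩
          obtain ⟨t, ht, hp, hle⟩ := h2 m hm
          obtain ⟨f, g, x, h3, _⟩ := a2 _ _ t hp hp hle hle ht
          simp only []
          rw [← e2]
          exact ⟨Nat.mul_pos hℓ (Nat.mul_pos hp hp), f, g, x, h3⟩
    · obtain ⟨ψ, c1, c2, c3⟩ := s2 φ i k hk
      refine ⟨ψ, ℓ, 2 * r, c1, vm _ F 0 0 ψ ?_ le_rfl c2, hℓ, by omega, ?_⟩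
      · rintro a b ⟨rfl, rfl⟩
        exact hi
      · ext n
        rw [c3 n]
        constructor
        · rintro ⟨hn, f, g, x, _, h⟩
          obtain ⟨W, H, hW, hH, rfl, ht⟩ := a1 n hn ⟨f, g, x, h⟩
          obtain ⟨m, hm, e⟩ := h1 W H hW hH ht
          exact ⟨m, hm, (e ℓ).symm⟩
        · rintro ⟨m, hm, rfl⟩
          obtain ⟨t, ht, hp, hle⟩ := h2 m hm
          obtain ⟨f, g, x, h3, h4⟩ := a2 _ _ t hp hp hle hle ht
          simp only []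
          rw [← e2]
          exact ⟨Nat.mul_pos hℓ (Nat.mul_pos hp hp), f, g, x, h4, h3⟩
  · obtain ⟨φ, ℓ, hℓ, a1, a2⟩ := aa Q U Hh Vv
    rcases fw F hF h0 with ⟨i, j, hij, hi, hj⟩ | ⟨i, k, hk, hi⟩
    · obtain ⟨ψ, c1, c2, c3⟩ := s1 φ i j hij
      refine ⟨ψ, ℓ, 2 * r, c1, vm _ F 0 0 ψ ?_ le_rfl c2, hℓ, by omega, ?_⟩
      · rintro a b ⟨rfl | rfl, rfl⟩
        · exact hi
        · exact hj
      · ext n
        rw [(c3 n).2]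
        constructor
        · rintro ⟨hn, h⟩
          obtain ⟨W, H, hW, hH, rfl, ht⟩ := a1 n hn h
          obtain ⟨m, hm, e⟩ := h1 W H hW hH ht
          exact ⟨m, hm, (e ℓ).symm⟩
        · rintro ⟨m, hm, rfl⟩
          obtain ⟨t, ht, hp, hle⟩ := h2 m hm
          obtain ⟨f, g, h3, _⟩ := a2 _ _ t hp hp hle hle ht
          simp only []
          rw [← e2]
          exact ⟨Nat.mul_pos hℓ (Nat.mul_pos hp hp), f, g, h3⟩
    · obtain ⟨ψ, c1, c2, c3⟩ := s3 φ i k hk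
      refine ⟨ψ, ℓ, 2 * r, c1, vm _ F 0 0 ψ ?_ le_rfl c2, hℓ, by omega, ?_⟩
      · rintro a b ⟨rfl, rfl⟩
        exact hi
      · ext n
        constructor
        · intro hn'
          obtain ⟨hn, h⟩ := (c3 n).1 hn'
          obtain ⟨W, H, hW, hH, rfl, ht⟩ := a1 n hn h
          obtain ⟨m, hm, e⟩ := h1 W H hW hH ht
          exact ⟨m, hm, (e ℓ).symm⟩
        · rintro ⟨m, hm, rfl⟩
          obtain ⟨t, ht, hp, hle⟩ := h2 m hm
          obtain ⟨f, g, h3, h4⟩ := a2 _ _ t hp hp hle hle ht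
          simp only []
          rw [← e2]
          exact (c3 _).2 (Nat.mul_pos hℓ (Nat.mul_pos hp hp)) ⟨f, g, h3, h4⟩

end Pool.Agent.H71.FX
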