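import Pool.Agent.H71.FX.Targets3
import Pool.Agent.H71.PF.Class
import Pool.Agent.H71.PX.All

/-!
# Prefix vocabulary classes: the theorem from the rows
-/

set_option autoImplicit false

namespace Pool.Agent.H71.FX

open Pool.Agent.H8.PL Pool.Agent.H71.PF Pool.Agent.H69.Sp Pool.Agent.H8.JS

/-- unary relation symbols and at most one unary function symbol -/
def T_DF : Prop := ∀ (π : List Bool) (F : ℕ → ℕ → Prop) (φ : QF), Few F → φ.Vars π.length →
  φ.Voc F 1 → Periodic (Spec π φ)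

/-- finite and cofinite sets are periodic -/
theorem periodic_of_finite {S : Set ℕ} (h : S.Finite ∨ Sᶜ.Finite) : Periodic S := by
  rcases h with h | h
  · obtain ⟨N, hN⟩ := h.bddAbove
    refine ⟨1, N + 1, one_pos, fun n hn => ⟨fun h1 => ?_, fun h1 => ?_⟩⟩
    · have := hN h1
      omega
    · have := hN h1
      omega
  · obtain ⟨N, hN⟩ := h.bddAbove
    have key : ∀ n, N + 1 ≤ n → n ∈ S := fun n hn => by
      by_contra h1
      have := hN (show n ∈ Sᶜ from h1)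
      omega
    exact ⟨1, N + 1, one_pos, fun n hn => iff_of_true (key n hn) (key _ (by omega))⟩

/-- all tame classes -/
theorem tame_periodic (vm : T_VM) (eu : T_EU) (ap : T_AP) (pp : T_PP) (pe : T_PE) (xr : T_XR)
    (df : T_DF) (π : List Bool) (F : ℕ → ℕ → Prop) (r : ℕ) (hF : ∀ i, ¬ F i 0) (hT : Tame π F r)
    (φ : QF) (hV : φ.Vars π.length) (hO : φ.Voc F r) : Periodic (Spec π φ) := by
  rcases hT with ⟨b, rfl | rfl⟩ | ⟨⟨i0, hi⟩, hr | ⟨a, b, rfl⟩⟩ | ⟨h0, a, b, rfl⟩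
  · exact pe _ 1 0 one_pos fun n _ hn => eu F r b φ hF (by simpa using hV) hO n hn
  · rcases (Spec (true :: List.replicate b false) φ).eq_empty_or_nonempty with h | ⟨s, hs⟩
    · rw [h]
      exact ⟨1, 0, one_pos, fun n _ => Iff.rfl⟩
    · exact pe _ s 0 hs.1 fun n _ hn => ap F r b φ hF (by simpa using hV) hO n s hn hs
  · exact df π F φ ⟨i0, hi⟩ hV (vm F F r 1 φ (fun _ _ h => h) hr hO)
  · obtain ⟨p, N, hp, h⟩ := pp i0 a b r φ (by
      simpa [Nat.add_assoc, Nat.add_comm 1 b] using hV) (vm F (UF i0) r r φ (fun j k h => hi j k h) le_rfl hO)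
    exact pe _ p N hp h
  · obtain ⟨φ', h1, _, h3⟩ := xr F r φ h0 hO
    rw [← h3]
    refine periodic_of_finite (PX.c_EF _ φ' ⟨a, b, Or.inl rfl⟩ (h1 _ hV))

/-- all other classes -/
theorem hard_pow (em : T_EM) (vm : T_VM) (lh : T_LH) (rx : T_RX) (af : T_AF) (hf : T_HF)
    (π : List Bool) (F : ℕ → ℕ → Prop) (r : ℕ) (hF : ∀ i, ¬ F i 0) (hT : ¬ Tame π F r) :
    ∀ S, IsSpectrum S → ∃ a s : ℕ, 0 < a ∧ 0 < s ∧ (fun m => a * m ^ s) '' S ∈ Cl π F r := by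
  intro S hS
  have h1 : ∀ b, π ≠ List.replicate b false ∧ π ≠ true :: List.replicate b false := fun b =>
    ⟨fun h => hT (Or.inl ⟨b, Or.inl h⟩), fun h => hT (Or.inl ⟨b, Or.inr h⟩)⟩
  have up : ∀ (ρ : List Bool) (ψ : QF) (X : Set ℕ), ρ.Sublist π → ψ.Vars ρ.length →
      ψ.Voc F r → Spec ρ ψ = X → X ∈ Cl π F r := by
    intro ρ ψ X hs hv ho hX
    obtain ⟨ψ', g1, g2, g3⟩ := em ρ π ψ hs hv
    exact ⟨ψ', g1, g2 F r ho, g3.trans hX⟩
  by_cases hFew : Few F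
  · have h2 : ∀ a b, π ≠ List.replicate a false ++ true :: List.replicate b false := fun a b h =>
      hT (Or.inr (Or.inl ⟨hFew, Or.inr ⟨a, b, h⟩⟩))
    have hr : 2 ≤ r := by
      by_contra h
      exact hT (Or.inr (Or.inl ⟨hFew, Or.inl (by omega)⟩))
    obtain ⟨i0, hi⟩ := hFew
    by_cases he : ∃ j k, F j k
    · obtain ⟨j, k, hjk⟩ := he
      obtain ⟨rfl, rfl⟩ := hi j k hjk
      obtain ⟨s, Q, U, Hh, Vv, hs, hQ, hgrid⟩ := z_sq S hS
      have hpos : ∀ m ∈ S, 0 < m := by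
        obtain ⟨L, _, _, φ, rfl⟩ := hS
        exact fun m hm => hm.1
      obtain ⟨φ, c1, c2, c3⟩ := af Q U Hh Vv j
      refine ⟨1, s, one_pos, hs, up [true, true] φ _ ((lh π).2 (fun b => (h1 b).1) h2) c1
        (vm _ F 2 r φ (fun a b h => ?_) hr c2) ?_⟩
      · obtain ⟨rfl, rfl⟩ := h
        exact hjk
      · ext M
        rw [c3]
        constructor
        · rintro ⟨hM, ht⟩
          obtain ⟨m, hm, e, _⟩ := (hgrid M M hM hM).1 ht
          exact ⟨m, hm, by simp [e]⟩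
        · rintro ⟨m, hm, rfl⟩
          have hp : 0 < m ^ s := Nat.pow_pos (hpos m hm)
          simp only [one_mul]
          exact ⟨hp, (hgrid _ _ hp hp).2 ⟨m, hm, rfl, rfl⟩⟩
    · have h3 : ∀ a b, π ≠ List.replicate a false ++ List.replicate b true := fun a b h =>
        hT (Or.inr (Or.inr ⟨fun i k hik => he ⟨i, k, hik⟩, a, b, h⟩))
      have hE : ¬ PX.Easy π := by
        rintro ⟨a, b, h | h⟩
        · exact h3 a b h
        · exact h2 a b h
      obtain ⟨φ, s, g1, g2, g3, g4⟩ := PX.px_pow π hE S hS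
      obtain ⟨ψ, k1, k2, k3⟩ := rx φ
      refine ⟨1, s, one_pos, g3, ψ, k1 _ g1, vm F F 2 r ψ (fun _ _ h => h) hr (k2 F g2), ?_⟩
      rw [k3, g4]
      simp
  · have key : ∀ ρ : List Bool, ρ = [false, true] ∨ ρ = [true, true] → ρ.Sublist π →
        ∃ a s : ℕ, 0 < a ∧ 0 < s ∧ (fun m => a * m ^ s) '' S ∈ Cl π F r := by
      intro ρ hρ hs
      obtain ⟨ψ, a, s, c1, c2, c3, c4, c5⟩ := hf F ρ hFew hF hρ S hS
      refine ⟨a, s, c3, c4, up ρ ψ _ hs ?_ (vm F F 0 r ψ (fun _ _ h => h) (Nat.zero_le _) c2) c5⟩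
      rcases hρ with rfl | rfl <;> exact c1
    rcases (lh π).1 h1 with h | h
    · exact key _ (Or.inl rfl) h
    · exact key _ (Or.inr rfl) h

/-- the theorem -/
theorem pf_MN (em : T_EM) (vm : T_VM) (lh : T_LH) (rx : T_RX) (af : T_AF) (hf : T_HF) (eu : T_EU)
    (ap : T_AP) (pp : T_PP) (pe : T_PE) (xr : T_XR) (df : T_DF) (as : T_AS) (nx : T_NX)
    (pi : T_PI) : ∀ (π : List Bool) (F : ℕ → ℕ → Prop) (r : ℕ), (∀ i, ¬ F i 0) →
    (Tame π F r → ∀ S ∈ Cl π F r, Periodic S ∧ IsSpectrum S ∧ IsSpectrum (posCompl S)) ∧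
    (¬ Tame π F r →
      (∀ S, IsSpectrum S → ∃ a s : ℕ, 0 < a ∧ 0 < s ∧ (fun m => a * m ^ s) '' S ∈ Cl π F r ∧
        (IsSpectrum (posCompl ((fun m => a * m ^ s) '' S)) ↔ IsSpectrum (posCompl S))) ∧
      ∃ X ∈ Cl π F r, NEComplete X ∧ (lang X ∈ coNE ↔ NE = coNE) ∧
        (IsSpectrum (posCompl X) ↔ NE = coNE)) := by
  intro π F r hF
  refine ⟨fun hT S hS => ?_, fun hT => ⟨fun S hS => ?_, ?_⟩⟩
  · obtain ⟨φ, hV, hO, rfl⟩ := hS
    have h := tame_periodic vm eu ap pp pe xr df π F r hF hT φ hV hO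
    exact ⟨h, pi _ h fun n hn => hn.1⟩
  · obtain ⟨a, s, h1, h2, h3⟩ := hard_pow em vm lh rx af hf π F r hF hT S hS
    exact ⟨a, s, h1, h2, h3, (as S a s h1 h2 hS).2⟩
  · exact nx _ (hard_pow em vm lh rx af hf π F r hF hT)

end Pool.Agent.H71.FX
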