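import Pool.Agent.H71.FX.Targets3

/-!
# Rows VM, FW, RX
-/

set_option autoImplicit false

namespace Pool.Agent.H71.FX

open Pool.Agent.H71.PF

theorem tm_voc_mono {F F' : ℕ → ℕ → Prop} (h : ∀ i k, F i k → F' i k) :
    ∀ t : Tm, t.Voc F → t.Voc F'
  | .var _, _ => trivial
  | .app _ ts, ⟨h1, h2⟩ => ⟨h _ _ h1, fun j => tm_voc_mono h (ts j) (h2 j)⟩

theorem pf_VM : T_VM := by
  intro F F' r r' φ hF hr
  induction φ with
  | rel i ts => exact fun ⟨h1, h2, h3⟩ => ⟨h1, h2.trans hr, fun t ht => tm_voc_mono hF t (h3 t ht)⟩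
  | eq s t => exact fun ⟨h1, h2⟩ => ⟨tm_voc_mono hF s h1, tm_voc_mono hF t h2⟩
  | neg φ ih => exact fun h => ih h
  | and φ ψ ih1 ih2 => exact fun h => ⟨ih1 h.1, ih2 h.2⟩

theorem pf_FW : T_FW := by
  intro F hF h0
  by_cases h2 : ∃ i k, 2 ≤ k ∧ F i k
  · exact Or.inr h2
  · left
    have key : ∀ i k, F i k → k = 1 := by
      intro i k h
      rcases Nat.lt_or_ge k 2 with h3 | h3
      · interval_cases k
        · exact absurd h (h0 i)
        · rfl
      · exact absurd ⟨i, k, h3, h⟩ h2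
    have key2 : ∀ i, ∃ j, F j 1 ∧ j ≠ i := by
      intro i
      by_contra h
      apply hF
      refine ⟨i, fun j k hjk => ?_⟩
      have e := key j k hjk
      subst e
      refine ⟨?_, rfl⟩
      by_contra hji
      exact h ⟨j, hjk, hji⟩
    obtain ⟨i, hi, _⟩ := key2 0
    obtain ⟨j, hj, hji⟩ := key2 i
    exact ⟨i, j, fun e => hji e.symm, hi, hj⟩

theorem pf_RX (tx : T_TX) : T_RX := by
  intro φ
  obtain ⟨ψ, h1, h2, h3⟩ := tx φ (fun i => .var i)
  have hs : ∀ (α : Type) (f : ℕ → List α → α) (R : ℕ → List α → Prop) (v : ℕ → α),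
      ψ.Sat f R v ↔ φ.Sat R v := fun α f R v => h3 α f R v
  have hp : ∀ (α : Type) (f : ℕ → List α → α) (R : ℕ → List α → Prop) (π : List Bool) (k : ℕ)
      (v : ℕ → α), Pre f R ψ π k v ↔ PX.Pre R φ π k v := by
    intro α f R π
    induction π with
    | nil => exact fun k v => hs α f R v
    | cons b π ih =>
      cases b
      · exact fun k v => exists_congr fun a => ih _ _
      · exact fun k v => forall_congr' fun a => ih _ _
  refine ⟨ψ, fun k hk => h1 k k hk fun i hi => hi, fun F hb => h2 F (fun _ => trivial) hb,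
    fun π => ?_⟩
  ext n
  constructor
  · rintro ⟨h0, f, R, h⟩
    exact ⟨h0, R, fun v => (hp _ f R π 0 v).1 (h v)⟩
  · rintro ⟨h0, R, h⟩
    exact ⟨h0, fun _ _ => ⟨0, h0⟩, R, fun v => (hp _ _ R π 0 v).2 (h v)⟩

end Pool.Agent.H71.FX
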