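import Pool.Agent.H1.FX.BD
import Pool.Agent.H1.FX.DE
import Pool.Agent.H1.FX.OV
import Pool.Agent.H1.FX.UE
import Pool.Agent.H10.FX.BC
import Pool.Agent.H10.FX.S1
import Pool.Agent.H17.FX.CA
import Pool.Agent.H17.FX.CE
import Pool.Agent.H17.FX.RE
import Pool.Agent.H20.FX.DW
import Pool.Agent.H21.FX.CH
import Pool.Agent.H21.FX.D1
import Pool.Agent.H21.FX.HC
import Pool.Agent.H27.FX.EM
import Pool.Agent.H32.FX.AD
import Pool.Agent.H32.FX.IL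
import Pool.Agent.H32.FX.IT
import Pool.Agent.H34.FX.CT
import Pool.Agent.H35.FX.FV
import Pool.Agent.H35.FX.TX
import Pool.Agent.H36.FX.AF
import Pool.Agent.H36.FX.DK
import Pool.Agent.H36.FX.PR
import Pool.Agent.H37.FX.EA
import Pool.Agent.H37.FX.S2
import Pool.Agent.H38.FX.NG
import Pool.Agent.H38.FX.RN
import Pool.Agent.H4.FX.EN
import Pool.Agent.H4.FX.RS
import Pool.Agent.H40.FX.PE
import Pool.Agent.H44.FX.S3
import Pool.Agent.H45.FX.AC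
import Pool.Agent.H45.FX.FXA
import Pool.Agent.H45.FX.RD
import Pool.Agent.H50.FX.AS
import Pool.Agent.H50.FX.NX
import Pool.Agent.H66.FX.OC
import Pool.Agent.H66.FX.PC
import Pool.Agent.H67.FX.RX
import Pool.Agent.H67.FX.TR
import Pool.Agent.H68.FX.FA
import Pool.Agent.H68.FX.SS
import Pool.Agent.H69.FX.EU
import Pool.Agent.H69.FX.FE
import Pool.Agent.H7.FX.CC
import Pool.Agent.H71.FX.HF
import Pool.Agent.H71.FX.Small
import Pool.Agent.H71.FX.XR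
import Pool.Agent.H74.FX.CO
import Pool.Agent.H76.FX.AP
import Pool.Agent.H76.FX.NB
import Pool.Agent.H79.FX.LH
import Pool.Agent.H86.FX.AA
import Pool.Agent.H86.FX.PP
import Pool.Agent.H86.FX.RM
import Pool.Agent.H86.FX.TP
import Pool.Agent.H89.FX.PI
import Pool.Agent.H89.FX.UA
import Pool.Agent.H89.FX.VW
import Pool.Agent.H94.FX.CL
import Pool.Agent.H94.FX.D2
import Pool.Agent.H95.FX.TI
import Pool.Agent.H97.FX.NF
import Pool.Agent.H97.FX.VM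
import Pool.Agent.H8.DFL.Pre
import Pool.Agent.H71.FX.Main
import Pool.Agent.H14.FX.SF

/-!
# Prefix vocabulary classes: the theorem
-/

set_option autoImplicit false

namespace Pool.Agent.H71.FX

open Pool.Agent Pool.Agent.H8.PL Pool.Agent.H71.PF Pool.Agent.H69.Sp Pool.Agent.H8.JS

/-! ### the rows -/

theorem c_IL : T_IL := Pool.Agent.H32.FX.pf_IL
theorem c_IT : T_IT := Pool.Agent.H32.FX.pf_IT
theorem c_RE : T_RE := Pool.Agent.H17.FX.pf_RE c_IT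
theorem c_TR : T_TR := Pool.Agent.H67.FX.pf_TR
theorem c_CO : T_CO := Pool.Agent.H74.FX.pf_CO c_IT c_TR
theorem c_AD : T_AD := Pool.Agent.H32.FX.pf_AD
theorem c_CT : T_CT := Pool.Agent.H34.FX.pf_CT c_IT c_CO c_AD
theorem c_NB : T_NB := Pool.Agent.H76.FX.pf_NB
theorem c_UE : T_UE := Pool.Agent.H1.FX.pf_UE c_RE c_CT c_NB
theorem c_UA : T_UA := Pool.Agent.H89.FX.pf_UA c_UE
theorem c_DE : T_DE := Pool.Agent.H1.FX.pf_DE c_IL c_TR
theorem c_RA : T_RA := Pool.Agent.H45.FX.pf_RA c_IL c_CO c_UE c_DE c_TR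
theorem c_CR : T_CR := Pool.Agent.H45.FX.pf_CR c_IL c_IT c_UA c_DE c_RA c_TR
theorem c_CE : T_CE := Pool.Agent.H17.FX.pf_CE c_RE c_IT c_CO c_UA c_TR
theorem c_CA : T_CA := Pool.Agent.H17.FX.pf_CA c_IT c_CR
theorem c_TI : T_TI := Pool.Agent.H95.FX.pf_TI
theorem c_RC : T_RC := Pool.Agent.H20.FX.pf_RC c_CR c_CE c_CA c_TI
theorem c_TB : T_TB := Pool.Agent.H45.FX.pf_TB
theorem c_OV : T_OV := Pool.Agent.H1.FX.pf_OV
theorem c_MR : T_MR := Pool.Agent.H45.FX.pf_MR c_TB c_OV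
theorem c_BC : T_BC := Pool.Agent.H10.FX.pf_BC
theorem c_RS : T_RS := Pool.Agent.H4.FX.pf_RS
theorem c_EN : T_EN := Pool.Agent.H4.FX.pf_EN
theorem c_DW : T_DW := Pool.Agent.H20.FX.pf_DW
theorem c_D1 : T_D1 := Pool.Agent.H21.FX.pf_D1 c_DW
theorem c_D2 : T_D2 := Pool.Agent.H94.FX.pf_D2 c_DW
theorem c_D5 : T_D5 := Pool.Agent.H20.FX.pf_D5 c_DW
theorem c_DK : T_DK := Pool.Agent.H36.FX.pf_DK
theorem c_TP : T_TP := Pool.Agent.H86.FX.pf_TP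
theorem c_AA : T_AA := Pool.Agent.H86.FX.pf_AA c_RC c_MR c_BC c_RS c_EN c_D1 c_D2 c_D5 c_DK c_TP
theorem c_RD : T_RD := Pool.Agent.H45.FX.pf_RD
theorem c_HC : T_HC := Pool.Agent.H21.FX.pf_HC
theorem c_CC : T_CC := Pool.Agent.H7.FX.pf_CC c_HC
theorem c_AC : T_AC := Pool.Agent.H45.FX.pf_AC c_RD c_HC c_CC
theorem c_TX : T_TX := Pool.Agent.H35.FX.pf_TX
theorem c_AF : T_AF := Pool.Agent.H36.FX.pf_AF c_TX
theorem c_FE : T_FE := Pool.Agent.H69.FX.pf_FE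
theorem c_FV : T_FV := Pool.Agent.H35.FX.pf_FV
theorem c_SS : T_SS := Pool.Agent.H68.FX.pf_SS
theorem c_AP : T_AP := Pool.Agent.H76.FX.pf_AP c_FE c_FV c_SS
theorem c_AS : T_AS := Pool.Agent.H50.FX.pf_AS
theorem c_BD : T_BD := Pool.Agent.H1.FX.pf_BD
theorem c_PC : T_PC := Pool.Agent.H66.FX.pf_PC
theorem c_RN : T_RN := Pool.Agent.H38.FX.pf_RN
theorem c_OC : T_OC := Pool.Agent.H66.FX.pf_OC c_RN c_BD
theorem c_CH : T_CH := Pool.Agent.H21.FX.pf_CH c_PC c_OC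
theorem c_CL : T_CL := Pool.Agent.H94.FX.pf_CL
theorem c_EA : T_EA := Pool.Agent.H37.FX.pf_EA c_RC c_MR c_BC c_RS c_EN c_D1 c_D2 c_D5 c_DK c_TP
theorem c_EM : T_EM := Pool.Agent.H27.FX.pf_EM
theorem c_EU : T_EU := Pool.Agent.H69.FX.pf_EU c_FE c_FV c_SS
theorem c_FA : T_FA := Pool.Agent.H68.FX.pf_FA
theorem c_FW : T_FW := Pool.Agent.H71.FX.pf_FW
theorem c_S1 : T_S1 := Pool.Agent.H10.FX.pf_S1
theorem c_S2 : T_S2 := Pool.Agent.H37.FX.pf_S2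
theorem c_S3 : T_S3 := Pool.Agent.H44.FX.pf_S3
theorem c_VM : T_VM := Pool.Agent.H97.FX.pf_VM
theorem c_HF : T_HF := Pool.Agent.H71.FX.pf_HF c_EA c_AA c_S1 c_S2 c_S3 c_VM c_FW
theorem c_LH : T_LH := Pool.Agent.H79.FX.pf_LH
theorem c_NF : T_NF := Pool.Agent.H97.FX.pf_NF c_FA c_FE c_FV c_SS
theorem c_NG : T_NG := Pool.Agent.H38.FX.pf_NG c_FA c_FE c_FV c_SS
theorem c_NX : T_NX := Pool.Agent.H50.FX.pf_NX c_AS
theorem c_PE : T_PE := Pool.Agent.H40.FX.pf_PE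
theorem c_PI : T_PI := Pool.Agent.H89.FX.pf_PI
theorem c_VW : T_VW := Pool.Agent.H89.FX.pf_VW
theorem c_RM : T_RM := Pool.Agent.H86.FX.pf_RM
theorem c_PR : T_PR := Pool.Agent.H36.FX.pf_PR c_RM
theorem c_PP : T_PP := Pool.Agent.H86.FX.pf_PP c_NF c_NG c_VW c_CL c_CH c_PR c_AC
theorem c_RX : T_RX := Pool.Agent.H67.FX.pf_RX c_TX
theorem c_XR : T_XR := Pool.Agent.H71.FX.pf_XR
theorem c_DF : T_DF := H8.DFL.pf_DF

/-- The theorem. -/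
theorem main : ∀ (π : List Bool) (F : ℕ → ℕ → Prop) (r : ℕ), (∀ i, ¬ F i 0) →
    (∀ S ∈ Cl π F r, IsSpectrum S ∧ lang S ∈ NE ∧
      (Tame π F r → Periodic S ∧ IsSpectrum (posCompl S))) ∧
    (¬ Tame π F r →
      (∀ S : Set ℕ, IsSpectrum S → ∃ a s : ℕ, 0 < a ∧ 0 < s ∧
        (fun m => a * m ^ s) '' S ∈ Cl π F r ∧
        (IsSpectrum (posCompl ((fun m => a * m ^ s) '' S)) ↔ IsSpectrum (posCompl S))) ∧
      ∃ X ∈ Cl π F r, NEComplete X ∧ (lang X ∈ coNE ↔ NE = coNE) ∧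
        (IsSpectrum (posCompl X) ↔ NE = coNE)) := by
  intro π F r hF
  obtain ⟨h1, h2⟩ := pf_MN c_EM c_VM c_LH c_RX c_AF c_HF c_EU c_AP c_PP c_PE c_XR c_DF c_AS c_NX
    c_PI π F r hF
  refine ⟨fun S hS => ?_, h2⟩
  have hs : IsSpectrum S := by
    obtain ⟨φ, hV, _, rfl⟩ := hS
    exact H14.FX.pf_SF π φ hV
  exact ⟨hs, j_jb _ hs, fun hT => ⟨(h1 hT S hS).1, (h1 hT S hS).2.2⟩⟩

end Pool.Agent.H71.FX
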