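import Pool.Agent.H71.FX.Targets

set_option autoImplicit false

namespace Pool.Agent.H71.FX

theorem co1 {α Q : Type} {m : Rc α Q} (it : T_IT) (h : m.Ru) : ∀ (i : ℕ) (x : α), ¬ m.tp x →
    (∀ a < i, ¬ m.rt (m.r^[a] x)) → m.r^[i] (m.u x) = m.u (m.r^[i] x) ∧
      ∀ a < i, ¬ m.rt (m.r^[a] (m.u x)) := by
  intro i
  induction i with
  | zero => exact fun x _ _ => ⟨rfl, fun a ha => absurd ha (Nat.not_lt_zero a)⟩
  | succ i ih =>
    intro x hx hr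
    obtain ⟨e, hr'⟩ := ih x hx fun a ha => hr a (by omega)
    have hy : ¬ m.rt (m.r^[i] x) := hr i (by omega)
    have hty : ¬ m.tp (m.r^[i] x) := fun h1 =>
      hx (((it α Q m h x i fun a ha => hr a (by omega)).2.2.1).1 h1)
    obtain ⟨_, _, g3, _, g5⟩ := (h (m.r^[i] x)).1
    refine ⟨?_, fun a ha => ?_⟩
    · rw [Function.iterate_succ_apply', e, g5 hy hty, ← Function.iterate_succ_apply' m.r]
    · rcases Nat.lt_succ_iff_lt_or_eq.1 ha with h1 | rfl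
      · exact hr' a h1
      · rw [e]
        exact fun h2 => hy ((g3 hty).2.2.2.1 h2)

theorem co2 {α Q : Type} {m : Rc α Q} (it : T_IT) (h : m.Ru) (i : ℕ) : ∀ (j : ℕ) (x : α),
    (∀ a < i, ¬ m.rt (m.r^[a] x)) → (∀ b < j, ¬ m.tp (m.u^[b] x)) →
      m.r^[i] (m.u^[j] x) = m.u^[j] (m.r^[i] x) ∧ ∀ a < i, ¬ m.rt (m.r^[a] (m.u^[j] x)) := by
  intro j
  induction j with
  | zero => exact fun x hr _ => ⟨rfl, hr⟩
  | succ j ih =>
    intro x hr ht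
    obtain ⟨e, hr'⟩ := ih x hr fun b hb => ht b (by omega)
    obtain ⟨e2, hr2⟩ := co1 it h i (m.u^[j] x) (ht j (by omega)) hr'
    rw [Function.iterate_succ_apply', Function.iterate_succ_apply', e2, e]
    exact ⟨rfl, hr2⟩

theorem pf_CO (it : T_IT) (tr : T_TR) : T_CO := by
  intro α Q m h x i j hr ht
  have key : ∀ b ≤ j, m.r^[i] (m.u^[b] x) = m.u^[b] (m.r^[i] x) ∧
      (∀ a < i, ¬ m.rt (m.r^[a] (m.u^[b] x))) := fun b hb =>
    co2 it h i b x hr fun c hc => ht c (by omega)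
  have hi : ∀ b ≤ j, (m.bt (m.u^[b] (m.r^[i] x)) ↔ m.bt (m.u^[b] x)) ∧
      (m.tp (m.u^[b] (m.r^[i] x)) ↔ m.tp (m.u^[b] x)) := by
    intro b hb
    obtain ⟨e, h1⟩ := key b hb
    rw [← e]
    have := it α Q m h (m.u^[b] x) i h1
    exact ⟨this.2.1, this.2.2.1⟩
  have ht' : ∀ b < j, ¬ m.tp (m.u^[b] (m.r^[i] x)) := fun b hb h1 =>
    ht b hb ((hi b hb.le).2.1 h1)
  obtain ⟨e, h1⟩ := key j le_rfl
  have h2 := it α Q m.tr (tr α Q m h) (m.r^[i] x) j ht'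
  have h3 : (m.lf (m.u^[j] (m.r^[i] x)) ↔ m.lf (m.r^[i] x)) := h2.2.1
  have h4 : (m.rt (m.u^[j] (m.r^[i] x)) ↔ m.rt (m.r^[i] x)) := h2.2.2.1
  refine ⟨e, h1, ht', ?_, (hi j le_rfl).2, ?_, (hi j le_rfl).1⟩
  · rw [e]
    exact h4
  · rw [e]
    exact h3

end Pool.Agent.H71.FX
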