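import Pool.Agent.H71.PF.Defs
import Pool.Agent.H8.PL.Sys

/-!
# Prefix vocabulary classes: definitions for the proof
-/

set_option autoImplicit false

namespace Pool.Agent.H71.FX

open Pool.Agent.H8.PL Pool.Agent.H71.PF

/-! ### conditions on two elements in terms of two unary functions -/

/-- the value of a word; `true` is `g`, `false` is `f`; the first letter is applied last -/
def wv {α : Type} (f g : α → α) : List Bool → α → α
  | [], x => x
  | true :: w, x => g (wv f g w x)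
  | false :: w, x => f (wv f g w x)

/-- Boolean combinations of equalities between words applied to one of the two variables (`false`
is the first, `true` is the second variable) -/
inductive B2 : Type
  | eq (w w' : List Bool) (x y : Bool) : B2
  | neg (φ : B2) : B2
  | and (φ ψ : B2) : B2

/-- satisfaction -/
def B2.Sat {α : Type} (f g : α → α) (x y : α) : B2 → Prop
  | .eq w w' a b => wv f g w (bif a then y else x) = wv f g w' (bif b then y else x)
  | .neg φ => ¬ φ.Sat f g x y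
  | .and φ ψ => φ.Sat f g x y ∧ ψ.Sat f g x y

/-- a condition on two elements and two functions which is given by such a combination -/
def DB (C : ∀ α : Type, (α → α) → (α → α) → α → α → Prop) : Prop :=
  ∃ φ : B2, ∀ (α : Type) (f g : α → α) (x y : α), φ.Sat f g x y ↔ C α f g x y

/-! ### the calculus of conditions -/

theorem DB.eq (w w' : List Bool) (a b : Bool) :
    DB (fun _ f g x y => wv f g w (bif a then y else x) = wv f g w' (bif b then y else x)) :=
  ⟨.eq w w' a b, fun _ _ _ _ _ => Iff.rfl⟩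

section
variable {C D : ∀ α : Type, (α → α) → (α → α) → α → α → Prop}

theorem DB.not (h : DB C) : DB (fun α f g x y => ¬ C α f g x y) := by
  obtain ⟨φ, h⟩ := h
  exact ⟨.neg φ, fun α f g x y => not_congr (h α f g x y)⟩

theorem DB.and (h : DB C) (h' : DB D) : DB (fun α f g x y => C α f g x y ∧ D α f g x y) := by
  obtain ⟨φ, h⟩ := h
  obtain ⟨ψ, h'⟩ := h'
  exact ⟨.and φ ψ, fun α f g x y => and_congr (h α f g x y) (h' α f g x y)⟩

theorem DB.congr (h : DB C) (e : ∀ α f g x y, C α f g x y ↔ D α f g x y) : DB D := by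
  obtain ⟨φ, h⟩ := h
  exact ⟨φ, fun α f g x y => (h α f g x y).trans (e α f g x y)⟩

theorem DB.or (h : DB C) (h' : DB D) : DB (fun α f g x y => C α f g x y ∨ D α f g x y) :=
  (h.not.and h'.not).not.congr fun α f g x y => by tauto

theorem DB.imp (h : DB C) (h' : DB D) : DB (fun α f g x y => C α f g x y → D α f g x y) :=
  (h.and h'.not).not.congr fun α f g x y => by tauto

theorem DB.iff (h : DB C) (h' : DB D) : DB (fun α f g x y => (C α f g x y ↔ D α f g x y)) :=
  ((h.imp h').and (h'.imp h)).congr fun α f g x y => by tauto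

theorem DB.tt : DB (fun _ _ _ _ _ => True) :=
  (DB.eq [] [] false false).congr fun α f g x y => by simp

theorem DB.const (p : Prop) : DB (fun _ _ _ _ _ => p) := by
  by_cases hp : p
  · exact DB.tt.congr fun _ _ _ _ _ => by simp [hp]
  · exact DB.tt.not.congr fun _ _ _ _ _ => by simp [hp]

end

/-- finitely many conditions -/
theorem DB.all {I : Type} [Finite I] {C : I → ∀ α : Type, (α → α) → (α → α) → α → α → Prop}
    (h : ∀ i, DB (C i)) : DB (fun α f g x y => ∀ i, C i α f g x y) := by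
  classical
  have := Fintype.ofFinite I
  have key : ∀ s : Finset I, DB (fun α f g x y => ∀ i ∈ s, C i α f g x y) := by
    intro s
    induction s using Finset.induction_on with
    | empty => exact DB.tt.congr fun α f g x y => by simp
    | insert a s ha ih =>
      exact ((h a).and ih).congr fun α f g x y => by simp
  exact (key Finset.univ).congr fun α f g x y => by simp

theorem DB.ex {I : Type} [Finite I] {C : I → ∀ α : Type, (α → α) → (α → α) → α → α → Prop}
    (h : ∀ i, DB (C i)) : DB (fun α f g x y => ∃ i, C i α f g x y) :=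
  (DB.all fun i => (h i).not).not.congr fun α f g x y => by simp

/-- finitely many conditions -/
theorem DB.allLt {n : ℕ} {C : ℕ → ∀ α : Type, (α → α) → (α → α) → α → α → Prop}
    (h : ∀ i < n, DB (C i)) : DB (fun α f g x y => ∀ i < n, C i α f g x y) :=
  (DB.all (I := Fin n) (C := fun i => C i) fun i => h i i.2).congr fun α f g x y =>
    ⟨fun h i hi => h ⟨i, hi⟩, fun h i => h i i.2⟩

theorem DB.exLt {n : ℕ} {C : ℕ → ∀ α : Type, (α → α) → (α → α) → α → α → Prop}
    (h : ∀ i < n, DB (C i)) : DB (fun α f g x y => ∃ i < n, C i α f g x y) :=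
  (DB.ex (I := Fin n) (C := fun i => C i) fun i => h i i.2).congr fun α f g x y =>
    ⟨fun ⟨i, h⟩ => ⟨i, i.2, h⟩, fun ⟨i, hi, h⟩ => ⟨⟨i, hi⟩, h⟩⟩

/-! ### rectangles -/

/-- The rectangle: `r`, `l`, `u`, `d`: right, left, up, down; `L`: the leftmost cell of the row;
`lf`, `rt`, `bt`, `tp`: the borders; `d1`, `k1`: digits and carries of the number of the row (binary,
least digit on the left); `d2`, `k2`: digits and carries of the number of the column; `T q`: the
tile `q`. -/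
structure Rc (α Q : Type) : Type where
  r : α → α
  l : α → α
  u : α → α
  d : α → α
  L : α → α
  lf : α → Prop
  rt : α → Prop
  bt : α → Prop
  tp : α → Prop
  d1 : α → Prop
  k1 : α → Prop
  d2 : α → Prop
  k2 : α → Prop
  T : Q → α → Prop

section
variable {α Q : Type} (m : Rc α Q)

/-- rules for the directions and the borders -/
def Rc.G1 (x : α) : Prop :=
  (¬ m.rt x → m.l (m.r x) = x ∧ ¬ m.lf (m.r x) ∧ (m.bt (m.r x) ↔ m.bt x) ∧
    (m.tp (m.r x) ↔ m.tp x)) ∧
  (¬ m.lf x → m.r (m.l x) = x ∧ ¬ m.rt (m.l x)) ∧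
  (¬ m.tp x → m.d (m.u x) = x ∧ ¬ m.bt (m.u x) ∧ (m.lf (m.u x) ↔ m.lf x) ∧
    (m.rt (m.u x) ↔ m.rt x)) ∧
  (¬ m.bt x → m.u (m.d x) = x ∧ ¬ m.tp (m.d x)) ∧
  (¬ m.rt x → ¬ m.tp x → m.r (m.u x) = m.u (m.r x))

/-- rules for the numbers of the rows -/
def Rc.G2 (x : α) : Prop :=
  (m.lf x → m.k1 x) ∧ (¬ m.rt x → (m.k1 (m.r x) ↔ m.k1 x ∧ m.d1 x)) ∧
    (¬ m.tp x → (m.d1 (m.u x) ↔ ¬ (m.d1 x ↔ m.k1 x)) ∧ (m.rt x → ¬ (m.k1 x ∧ m.d1 x)))

/-- rules for the numbers of the columns -/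
def Rc.G3 (x : α) : Prop :=
  (m.bt x → m.k2 x) ∧ (¬ m.tp x → (m.k2 (m.u x) ↔ m.k2 x ∧ m.d2 x)) ∧
    (¬ m.rt x → (m.d2 (m.r x) ↔ ¬ (m.d2 x ↔ m.k2 x)) ∧ (m.tp x → ¬ (m.k2 x ∧ m.d2 x)))

/-- rules for the leftmost cell -/
def Rc.G4 (x : α) : Prop :=
  m.lf (m.L x) ∧ (m.tp (m.L x) ↔ m.tp x) ∧ (¬ m.tp x → m.L (m.u x) = m.u (m.L x))

/-- rules for the tiles -/
def Rc.G5 (U : Bool → Bool → Bool → Bool → Q → Prop) (Hh Vv : Q → Q → Prop) (x : α) : Prop :=
  (∃ q, m.T q x) ∧ (∀ q, m.T q x → ∀ b1 b2 b3 b4 : Bool, (b1 = true ↔ m.lf x) →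
    (b2 = true ↔ m.rt x) → (b3 = true ↔ m.bt x) → (b4 = true ↔ m.tp x) → U b1 b2 b3 b4 q) ∧
  (¬ m.rt x → ∀ q q', m.T q x → m.T q' (m.r x) → Hh q q') ∧
  (¬ m.tp x → ∀ q q', m.T q x → m.T q' (m.u x) → Vv q q')

/-- the transposed structure -/
def Rc.tr : Rc α Q where
  r := m.u
  l := m.d
  u := m.r
  d := m.l
  L := m.L
  lf := m.bt
  rt := m.tp
  bt := m.lf
  tp := m.rt
  d1 := m.d2
  k1 := m.k2
  d2 := m.d1
  k2 := m.k1
  T := m.T

/-- all rules without the tiles and without `L` -/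
def Rc.Ru : Prop := ∀ x, m.G1 x ∧ m.G2 x ∧ m.G3 x

/-- all rules -/
def Rc.Ok (U : Bool → Bool → Bool → Bool → Q → Prop) (Hh Vv : Q → Q → Prop) : Prop :=
  ∀ x, m.G1 x ∧ m.G2 x ∧ m.G3 x ∧ m.G4 x ∧ m.G5 U Hh Vv x

/-- the lower left corner -/
def Rc.cr (x : α) : Prop := m.lf x ∧ m.bt x

end

/-- the number with the digits `a 0, …, a (w - 1)` -/
noncomputable def num (a : ℕ → Prop) (w : ℕ) : ℕ := by
  classical exact ∑ j ∈ Finset.range w, if a j then 2 ^ j else 0

/-- the intended rectangle -/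
def MR {Q : Type} (W H : ℕ) (t : ℕ → ℕ → Q) : Rc (Fin W × Fin H) Q where
  r x := if h : x.1.1 + 1 < W then (⟨x.1.1 + 1, h⟩, x.2) else x
  l x := (⟨x.1.1 - 1, by have := x.1.2; omega⟩, x.2)
  u x := if h : x.2.1 + 1 < H then (x.1, ⟨x.2.1 + 1, h⟩) else x
  d x := (x.1, ⟨x.2.1 - 1, by have := x.2.2; omega⟩)
  L x := (⟨0, by have := x.1.2; omega⟩, x.2)
  lf x := x.1.1 = 0
  rt x := x.1.1 + 1 = W
  bt x := x.2.1 = 0
  tp x := x.2.1 + 1 = H
  d1 x := x.2.1.testBit x.1.1 = true
  k1 x := ∀ j < x.1.1, x.2.1.testBit j = true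
  d2 x := x.1.1.testBit x.2.1 = true
  k2 x := ∀ j < x.2.1, x.1.1.testBit j = true
  T q x := t x.1.1 x.2.1 = q

/-! ### blocks -/

/-- the rules for a block of length `ℓ` -/
def Bk {β : Type} (ℓ : ℕ) (f g : β → β) (x : β) : Prop :=
  g^[ℓ] x = x ∧ (∃ i < ℓ, f (g^[i] x) = g^[i] x) ∧
    (f x = x → (∀ i < ℓ, 0 < i → f (g^[i] x) ≠ g^[i] x) ∧
      ∀ i < 6, f (f (g^[i] x)) = f (g^[i] x))

/-- the structure given by two unary functions: the functions are `f (g^[i] x)`, `i = 1, …, 5`; the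
predicates are `f (g^[i] x) = x`, `i = 6, 7, …`. -/
def dcd {β Q : Type} (e : Q → ℕ) (f g : β → β) : Rc β Q where
  r x := f (g^[1] x)
  l x := f (g^[2] x)
  u x := f (g^[3] x)
  d x := f (g^[4] x)
  L x := f (g^[5] x)
  lf x := f (g^[6] x) = x
  rt x := f (g^[7] x) = x
  bt x := f (g^[8] x) = x
  tp x := f (g^[9] x) = x
  d1 x := f (g^[10] x) = x
  k1 x := f (g^[11] x) = x
  d2 x := f (g^[12] x) = x
  k2 x := f (g^[13] x) = x
  T q x := f (g^[14 + e q] x) = x

end Pool.Agent.H71.FX
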