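import Pool.Agent.H71.PF.Defs

/-!
# Prefix vocabulary classes: structures with one unary function and chosen witnesses
-/

set_option autoImplicit false

namespace Pool.Agent.H71.FX

open Pool.Agent.H71.PF

/-- one unary function symbol -/
def UF (i0 : ℕ) : ℕ → ℕ → Prop := fun j k => j = i0 ∧ k = 1

/-- a structure with one unary function and chosen witnesses: `w x` is the assignment chosen for
the element `x` -/
structure Sk (α : Type) : Type where
  f : α → α
  R : ℕ → List α → Prop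
  w : α → ℕ → α

/-- The parameters: `a` constants, `K` variables, terms of depth `≤ D`, relations of arity `≤ r`,
relation symbols `< J`. -/
structure Pr : Type where
  a : ℕ
  K : ℕ
  D : ℕ
  r : ℕ
  J : ℕ

/-- the radius of the windows -/
def Pr.B (P : Pr) : ℕ := P.D + P.K * (P.D + 2)

section
variable {α β : Type}

/-- the interpretation of the function symbols; `d` is used for the empty list only -/
def Sk.F (m : Sk α) (d : α) : ℕ → List α → α := fun _ l => (l.map m.f).headD d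

/-- the values of the terms of depth `≤ D` at `x` -/
def Sk.T (P : Pr) (m : Sk α) (x : α) : Set α := {z | ∃ i < P.K, ∃ k ≤ P.D, z = m.f^[k] (m.w x i)}

/-- `x` is the value of the variable `a`; the variables `< a` have the same value for all `x` -/
def Sk.Wf (m : Sk α) (a : ℕ) : Prop := (∀ x y, ∀ i < a, m.w x i = m.w y i) ∧ ∀ x, m.w x a = x

/-- the values of the terms of depth `≤ D` in the constants -/
def Sk.Nam (P : Pr) (m : Sk α) (z : α) : Prop := ∃ x, ∃ i < P.a, ∃ k ≤ P.D, z = m.f^[k] (m.w x i)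

/-- the element `x'` of `m'` looks like the element `x` of `m` -/
def See (P : Pr) (m : Sk α) (m' : Sk β) (x : α) (x' : β) : Prop :=
  ∃ h : α → β, (∀ i < P.K, ∀ k ≤ P.D, m'.f^[k] (m'.w x' i) = h (m.f^[k] (m.w x i))) ∧
    Set.InjOn h (m.T P x) ∧ ∀ (j : ℕ) (l : List α), j < P.J → 1 ≤ l.length → l.length ≤ P.r →
      (∀ z ∈ l, z ∈ m.T P x) → (m'.R j (l.map h) ↔ m.R j l)

/-- `m'` looks like `m` everywhere -/
def Step (P : Pr) (m : Sk α) (m' : Sk β) : Prop := m'.Wf P.a ∧ ∀ x', ∃ x, See P m m' x x'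

/-- a nonempty set of unnamed elements which is closed under preimages -/
def Free (P : Pr) (m : Sk α) (K0 : Set α) : Prop :=
  K0.Nonempty ∧ (∀ x, m.f x ∈ K0 → x ∈ K0) ∧ ∀ z ∈ K0, ¬ m.Nam P z

/-- a chain of different unnamed elements with unique preimages -/
def Chain (P : Pr) (m : Sk α) (e : ℕ → α) (M : ℕ) : Prop :=
  (∀ s < M, m.f (e s) = e (s + 1)) ∧ (∀ s ≤ M, ∀ s' ≤ M, e s = e s' → s = s') ∧
    (∀ s < M, ∀ z, m.f z = e (s + 1) → z = e s) ∧ ∀ s ≤ M, ¬ m.Nam P (e s)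

/-- the elements of a window -/
def Wd (m : Sk α) (e : ℕ → α) (p : ℕ) (v : ℕ × ℕ × ℕ) : α := m.f^[v.2.2] (m.w (e (p + v.1)) v.2.1)

/-- the indices of the elements of a window -/
def Ix (P : Pr) (v : ℕ × ℕ × ℕ) : Prop := v.1 ≤ 6 * P.B ∧ v.2.1 < P.K ∧ v.2.2 ≤ P.D

/-- the windows at `p` and `q` look alike, and common elements have the same index -/
def Alike (P : Pr) (m : Sk α) (e : ℕ → α) (p q : ℕ) : Prop :=
  (∀ u v, Ix P u → Ix P v → Wd m e p u = Wd m e q v → Wd m e q u = Wd m e p u) ∧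
    ∀ (j : ℕ) (l : List (ℕ × ℕ × ℕ)), j < P.J → 1 ≤ l.length → l.length ≤ P.r →
      (∀ u ∈ l, Ix P u) → (m.R j (l.map (Wd m e p)) ↔ m.R j (l.map (Wd m e q)))

/-- no path of a view crosses the distance `ρ` from `s` -/
def Rad (P : Pr) (m : Sk α) (e : ℕ → α) (s ρ : ℕ) : Prop :=
  P.D ≤ ρ ∧ ρ ≤ P.B ∧ ∀ i < P.K, ∀ k < P.D, m.f^[k] (m.w (e s) i) ≠ e (s + ρ) ∧
    m.f^[k] (m.w (e s) i) ≠ e (s - ρ - 1)

open Classical in
/-- the elements of the chain at distance `≤ ρ` from `e s` are moved to the new cycle -/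
noncomputable def hh (e : ℕ → α) (ℓ ρ s : ℕ) (y : α) : α ⊕ ZMod ℓ :=
  if h : ∃ u, s ≤ u + ρ ∧ u ≤ s + ρ ∧ e u = y then Sum.inr ((h.choose : ℕ) : ZMod ℓ) else Sum.inl y

/-- the function of the new structure -/
def ff (m : Sk α) (ℓ : ℕ) : α ⊕ ZMod ℓ → α ⊕ ZMod ℓ := Sum.map m.f (fun z => z + 1)

end

end Pool.Agent.H71.FX
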