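import Pool.Agent.H71.FX.Defs

/-!
# Prefix vocabulary classes: targets, first part (rectangles and blocks)
-/

set_option autoImplicit false

namespace Pool.Agent.H71.FX

open Pool.Agent.H8.PL Pool.Agent.H71.PF

/-- the conditions of a tile system -/
abbrev UT (Q : Type) := Bool → Bool → Bool → Bool → Q → Prop

/-! ### rectangles -/

/-- the transposed structure -/
def T_TR : Prop := ∀ (α Q : Type) (m : Rc α Q), m.Ru → m.tr.Ru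

/-- to the right -/
def T_IT : Prop := ∀ (α Q : Type) (m : Rc α Q), m.Ru → ∀ (x : α) (j : ℕ),
  (∀ i < j, ¬ m.rt (m.r^[i] x)) → m.l^[j] (m.r^[j] x) = x ∧ (m.bt (m.r^[j] x) ↔ m.bt x) ∧
    (m.tp (m.r^[j] x) ↔ m.tp x) ∧ (0 < j → ¬ m.lf (m.r^[j] x))

/-- to the left -/
def T_IL : Prop := ∀ (α Q : Type) (m : Rc α Q), m.Ru → ∀ (x : α) (j : ℕ),
  (∀ i < j, ¬ m.lf (m.l^[i] x)) → m.r^[j] (m.l^[j] x) = x ∧
    (∀ i < j, ¬ m.rt (m.r^[i] (m.l^[j] x))) ∧ (m.bt (m.l^[j] x) ↔ m.bt x) ∧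
    (m.tp (m.l^[j] x) ↔ m.tp x) ∧ (0 < j → ¬ m.rt (m.l^[j] x))

/-- right and up commute -/
def T_CO : Prop := ∀ (α Q : Type) (m : Rc α Q), m.Ru → ∀ (x : α) (i j : ℕ),
  (∀ a < i, ¬ m.rt (m.r^[a] x)) → (∀ b < j, ¬ m.tp (m.u^[b] x)) →
    m.r^[i] (m.u^[j] x) = m.u^[j] (m.r^[i] x) ∧ (∀ a < i, ¬ m.rt (m.r^[a] (m.u^[j] x))) ∧
    (∀ b < j, ¬ m.tp (m.u^[b] (m.r^[i] x))) ∧ (m.rt (m.r^[i] (m.u^[j] x)) ↔ m.rt (m.r^[i] x)) ∧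
    (m.tp (m.u^[j] (m.r^[i] x)) ↔ m.tp (m.u^[j] x)) ∧
    (m.lf (m.r^[i] (m.u^[j] x)) ↔ m.lf (m.r^[i] x)) ∧
    (m.bt (m.u^[j] (m.r^[i] x)) ↔ m.bt (m.u^[j] x))

/-- rows end on the right -/
def T_RE : Prop := ∀ (α Q : Type) (m : Rc α Q), Finite α → m.Ru → ∀ x : α, m.lf x →
  ∃ j, m.rt (m.r^[j] x) ∧ ∀ i < j, ¬ m.rt (m.r^[i] x)

/-- numbers are bounded -/
def T_NB : Prop := ∀ (a : ℕ → Prop) (w : ℕ), num a w < 2 ^ w

/-- addition of one -/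
def T_AD : Prop := ∀ (a b k : ℕ → Prop) (w : ℕ), k 0 → (∀ j < w, (k (j + 1) ↔ k j ∧ a j)) →
  (∀ j < w, (b j ↔ ¬ (a j ↔ k j))) → ¬ k w → num b w = num a w + 1

/-- the number of a row grows -/
def T_CT : Prop := ∀ (α Q : Type) (m : Rc α Q), m.Ru → ∀ (x : α) (j : ℕ), m.lf x → ¬ m.tp x →
  m.rt (m.r^[j] x) → (∀ i < j, ¬ m.rt (m.r^[i] x)) →
    m.lf (m.u x) ∧ m.rt (m.r^[j] (m.u x)) ∧ (∀ i < j, ¬ m.rt (m.r^[i] (m.u x))) ∧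
    num (fun i => m.d1 (m.r^[i] (m.u x))) (j + 1) = num (fun i => m.d1 (m.r^[i] x)) (j + 1) + 1

/-- the left column ends -/
def T_UE : Prop := ∀ (α Q : Type) (m : Rc α Q), Finite α → m.Ru → ∀ x : α, m.lf x →
  ∃ i, m.tp (m.u^[i] x)

/-- all columns end above -/
def T_UA : Prop := ∀ (α Q : Type) (m : Rc α Q), Finite α → m.Ru → (∀ x, m.G4 x) → ∀ x : α,
  ∃ i, m.tp (m.u^[i] x)

/-- all columns end below -/
def T_DE : Prop := ∀ (α Q : Type) (m : Rc α Q), Finite α → m.Ru → (∀ x : α, ∃ i, m.tp (m.u^[i] x)) →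
  ∀ x : α, ∃ i, m.bt (m.d^[i] x)

/-- all rows end on the right -/
def T_RA : Prop := ∀ (α Q : Type) (m : Rc α Q), Finite α → m.Ru → (∀ x : α, ∃ i, m.tp (m.u^[i] x)) →
  ∀ x : α, ∃ j, m.rt (m.r^[j] x)

/-- coordinates -/
def T_CR : Prop := ∀ (α Q : Type) (m : Rc α Q), Finite α → m.Ru → (∀ x, m.G4 x) → ∀ x : α,
  ∃ z i j, m.cr z ∧ (∀ b < i, ¬ m.tp (m.u^[b] z)) ∧ (∀ a < j, ¬ m.rt (m.r^[a] (m.u^[i] z))) ∧
    x = m.r^[j] (m.u^[i] z)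

/-- the cells of a rectangle -/
def Cells {α Q : Type} (m : Rc α Q) (z : α) (W H : ℕ) : Prop :=
  ∀ a b, a < W → b < H → (m.lf (m.r^[a] (m.u^[b] z)) ↔ a = 0) ∧
    (m.rt (m.r^[a] (m.u^[b] z)) ↔ a + 1 = W) ∧ (m.bt (m.r^[a] (m.u^[b] z)) ↔ b = 0) ∧
    (m.tp (m.r^[a] (m.u^[b] z)) ↔ b + 1 = H) ∧
    (b + 1 < H → m.u (m.r^[a] (m.u^[b] z)) = m.r^[a] (m.u^[b + 1] z))

/-- the lower left corner and its rectangle -/
def T_CE : Prop := ∀ (α Q : Type) (m : Rc α Q), Finite α → m.Ru → (∀ x, m.G4 x) → ∀ z : α, m.cr z →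
  ∃ W H, 0 < W ∧ 0 < H ∧ Cells m z W H

/-- the number of elements -/
def T_CA : Prop := ∀ (α Q : Type) (m : Rc α Q), Finite α → m.Ru → (∀ x, m.G4 x) →
  (∀ z z', m.cr z → m.cr z' → z = z') → ∀ (z : α) (W H : ℕ), m.cr z → 0 < W → 0 < H →
    Cells m z W H → Nat.card α = W * H

/-- the tiling -/
def T_TI : Prop := ∀ (α Q : Type) (m : Rc α Q) (U : UT Q) (Hh Vv : Q → Q → Prop) (z : α) (W H : ℕ),
  m.Ok U Hh Vv → Cells m z W H → ∃ t, GridF U Hh Vv W H t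

/-- all finite models -/
def T_RC : Prop := ∀ (α Q : Type) (m : Rc α Q) (U : UT Q) (Hh Vv : Q → Q → Prop),
  Nonempty α → Finite α → m.Ok U Hh Vv → (∀ z z', m.cr z → m.cr z' → z = z') →
    ∃ W H, 0 < W ∧ 0 < H ∧ Nat.card α = W * H ∧ ∃ t, GridF U Hh Vv W H t

/-! ### the intended rectangle -/

/-- binary addition of one -/
def T_TB : Prop := ∀ y j : ℕ, ((y + 1).testBit j = true ↔
  ¬ (y.testBit j = true ↔ ∀ i < j, y.testBit i = true))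

/-- no overflow -/
def T_OV : Prop := ∀ y w : ℕ, y + 1 < 2 ^ (w + 1) → ¬ ((∀ i < w, y.testBit i = true) ∧
  y.testBit w = true)

/-- the rules hold -/
def T_MR : Prop := ∀ (Q : Type) (U : UT Q) (Hh Vv : Q → Q → Prop) (W H : ℕ) (t : ℕ → ℕ → Q),
  0 < W → 0 < H → H ≤ 2 ^ W → W ≤ 2 ^ H → GridF U Hh Vv W H t →
    (MR W H t).Ok U Hh Vv ∧ ∀ z z', (MR W H t).cr z → (MR W H t).cr z' → z = z'

/-! ### blocks -/

/-- the rules for one element of a structure with two unary functions -/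
def A1 {β Q : Type} (ℓ : ℕ) (e : Q → ℕ) (U : UT Q) (Hh Vv : Q → Q → Prop) (f g : β → β) (x : β) :
    Prop :=
  Bk ℓ f g x ∧ (f x = x → (dcd e f g).G1 x ∧ (dcd e f g).G2 x ∧ (dcd e f g).G3 x ∧
    (dcd e f g).G4 x ∧ (dcd e f g).G5 U Hh Vv x)

/-- the number of elements -/
def T_BC : Prop := ∀ (β : Type) (f g : β → β) (ℓ : ℕ), Finite β → 6 ≤ ℓ → (∀ x, Bk ℓ f g x) →
  Nat.card β = ℓ * Nat.card {x // f x = x} ∧ (Nonempty β → Nonempty {x // f x = x})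

/-- the structure on the first elements of the blocks -/
def T_RS : Prop := ∀ (β Q : Type) (f g : β → β) (ℓ : ℕ) (e : Q → ℕ) (U : UT Q) (Hh Vv : Q → Q → Prop),
  6 ≤ ℓ → (∀ x, A1 ℓ e U Hh Vv f g x) → ∃ m : Rc {x // f x = x} Q, m.Ok U Hh Vv ∧
    ∀ x, (m.cr x ↔ (dcd e f g).cr x.1)

/-- the code of a structure -/
def T_EN : Prop := ∀ (α Q : Type) (m : Rc α Q) (e : Q → ℕ) (N : ℕ) (U : UT Q)
  (Hh Vv : Q → Q → Prop), Function.Injective e → (∀ q, e q < N) → m.Ok U Hh Vv →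
    ∃ f g : α × Fin (15 + N) → α × Fin (15 + N), (∀ x, A1 (15 + N) e U Hh Vv f g x) ∧
      (∀ x, f x = x → ((dcd e f g).cr x ↔ m.cr x.1)) ∧ (∀ x y, f x = x → f y = y → x.1 = y.1 → x = y) ∧
      (∀ x, g x ≠ x) ∧ ∀ x, f x = x → f (g^[14 + N] x) = g (g^[14 + N] x)

/-! ### the rules are conditions -/

/-- values of iterates -/
def T_DW : Prop := ∀ (w w' : List ℕ) (a b : Bool),
  DB (fun _ f g x y => (w.foldr (fun i z => f (g^[i] z)) (bif a then y else x)) =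
    w'.foldr (fun i z => f (g^[i] z)) (bif b then y else x))

/-- directions -/
def T_D1 : Prop := ∀ (Q : Type) (e : Q → ℕ) (b : Bool),
  DB (fun _ f g x y => (dcd e f g).G1 (bif b then y else x))

/-- numbers -/
def T_D2 : Prop := ∀ (Q : Type) (e : Q → ℕ) (b : Bool),
  DB (fun _ f g x y => (dcd e f g).G2 (bif b then y else x)) ∧
  DB (fun _ f g x y => (dcd e f g).G3 (bif b then y else x)) ∧
  DB (fun _ f g x y => (dcd e f g).G4 (bif b then y else x)) ∧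
  DB (fun _ f g x y => (dcd e f g).cr (bif b then y else x))

/-- tiles -/
def T_D5 : Prop := ∀ (Q : Type) [Finite Q] (e : Q → ℕ) (U : UT Q) (Hh Vv : Q → Q → Prop) (b : Bool),
  DB (fun _ f g x y => (dcd e f g).G5 U Hh Vv (bif b then y else x))

/-- blocks -/
def T_DK : Prop := ∀ (ℓ : ℕ) (b : Bool), DB (fun _ f g x y => Bk ℓ f g (bif b then y else x)) ∧
  DB (fun _ f g x y => f (bif b then y else x) = bif b then y else x) ∧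
  DB (fun _ _ g x y => g^[ℓ] y = x) ∧ DB (fun _ _ _ x y => x = y)

/-! ### two unary functions -/

/-- transport -/
def T_TP : Prop := ∀ (α β : Type) (E : α ≃ β) (φ : B2) (f g : α → α) (x y : α),
  (φ.Sat (fun b => E (f (E.symm b))) (fun b => E (g (E.symm b))) (E x) (E y) ↔ φ.Sat f g x y)

/-- the prefix `∃∀` -/
def T_EA : Prop := ∀ (Q : Type) [Finite Q] (U : UT Q) (Hh Vv : Q → Q → Prop), ∃ (φ : B2) (ℓ : ℕ),
  0 < ℓ ∧ (∀ n, 0 < n → (∃ (f g : Fin n → Fin n) (x : Fin n), ∀ y, φ.Sat f g x y) →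
    ∃ W H, 0 < W ∧ 0 < H ∧ n = ℓ * (W * H) ∧ ∃ t, GridF U Hh Vv W H t) ∧
  ∀ (W H : ℕ) (t : ℕ → ℕ → Q), 0 < W → 0 < H → H ≤ 2 ^ W → W ≤ 2 ^ H → GridF U Hh Vv W H t →
    ∃ (f g : Fin (ℓ * (W * H)) → Fin (ℓ * (W * H))) (x : Fin (ℓ * (W * H))),
      (∀ y, φ.Sat f g x y) ∧ f x = g x

/-- the prefix `∀∀` -/
def T_AA : Prop := ∀ (Q : Type) [Finite Q] (U : UT Q) (Hh Vv : Q → Q → Prop), ∃ (φ : B2) (ℓ : ℕ),
  0 < ℓ ∧ (∀ n, 0 < n → (∃ f g : Fin n → Fin n, ∀ x y, φ.Sat f g x y) →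
    ∃ W H, 0 < W ∧ 0 < H ∧ n = ℓ * (W * H) ∧ ∃ t, GridF U Hh Vv W H t) ∧
  ∀ (W H : ℕ) (t : ℕ → ℕ → Q), 0 < W → 0 < H → H ≤ 2 ^ W → W ≤ 2 ^ H → GridF U Hh Vv W H t →
    ∃ f g : Fin (ℓ * (W * H)) → Fin (ℓ * (W * H)), (∀ x y, φ.Sat f g x y) ∧ ∀ x, g x ≠ x

/-! ### sentences with function symbols -/

/-- two unary function symbols -/
def T_S1 : Prop := ∀ (φ : B2) (i j : ℕ), i ≠ j → ∃ ψ : QF, ψ.Vars 2 ∧
  ψ.Voc (fun a k => (a = i ∨ a = j) ∧ k = 1) 0 ∧ ∀ n,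
    (n ∈ Spec [false, true] ψ ↔ 0 < n ∧ ∃ (f g : Fin n → Fin n) (x : Fin n), ∀ y, φ.Sat f g x y) ∧
    (n ∈ Spec [true, true] ψ ↔ 0 < n ∧ ∃ f g : Fin n → Fin n, ∀ x y, φ.Sat f g x y)

/-- one function symbol, the prefix `∃∀` -/
def T_S2 : Prop := ∀ (φ : B2) (i k : ℕ), 2 ≤ k → ∃ ψ : QF, ψ.Vars 2 ∧
  ψ.Voc (fun a l => a = i ∧ l = k) 0 ∧ ∀ n, (n ∈ Spec [false, true] ψ ↔
    0 < n ∧ ∃ (f g : Fin n → Fin n) (x : Fin n), f x = g x ∧ ∀ y, φ.Sat f g x y)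

/-- one function symbol, the prefix `∀∀` -/
def T_S3 : Prop := ∀ (φ : B2) (i k : ℕ), 2 ≤ k → ∃ ψ : QF, ψ.Vars 2 ∧
  ψ.Voc (fun a l => a = i ∧ l = k) 0 ∧ ∀ n,
    (n ∈ Spec [true, true] ψ → 0 < n ∧ ∃ f g : Fin n → Fin n, ∀ x y, φ.Sat f g x y) ∧
    (0 < n → (∃ f g : Fin n → Fin n, (∀ x y, φ.Sat f g x y) ∧ ∀ x, g x ≠ x) →
      n ∈ Spec [true, true] ψ)

end Pool.Agent.H71.FX
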