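import Pool.Agent.H71.FX.Defs2

/-!
# Prefix vocabulary classes: targets, second part (one unary function)
-/

set_option autoImplicit false

namespace Pool.Agent.H71.FX

open Pool.Agent.H71.PF

/-! ### valuations and prefixes -/

/-- only the values of the variables `< k` matter -/
def T_FV : Prop := ∀ (α : Type) (f : ℕ → List α → α) (R : ℕ → List α → Prop) (φ : QF) (k : ℕ)
  (v w : ℕ → α), φ.Vars k → (∀ i < k, v i = w i) → (φ.Sat f R v ↔ φ.Sat f R w)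

/-- existential quantifiers at the beginning -/
def T_FA : Prop := ∀ (α : Type) (f : ℕ → List α → α) (R : ℕ → List α → Prop) (φ : QF) (a : ℕ)
  (π : List Bool) (v : ℕ → α), (Pre f R φ (List.replicate a false ++ π) 0 v ↔
    ∃ c : ℕ → α, (∀ i, a ≤ i → c i = v i) ∧ Pre f R φ π a c)

/-- existential quantifiers at the end -/
def T_FE : Prop := ∀ (α : Type) (f : ℕ → List α → α) (R : ℕ → List α → Prop) (φ : QF) (k b : ℕ)
  (v : ℕ → α), (Pre f R φ (List.replicate b false) k v ↔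
    ∃ c : ℕ → α, (∀ i, i < k ∨ k + b ≤ i → c i = v i) ∧ φ.Sat f R c)

/-- embeddings -/
def T_SS : Prop := ∀ (α β : Type) (h : α → β), Function.Injective h →
  ∀ (f : ℕ → List α → α) (f' : ℕ → List β → β) (R : ℕ → List α → Prop) (R' : ℕ → List β → Prop)
    (F : ℕ → ℕ → Prop) (r : ℕ), (∀ i l, F i l.length → f' i (l.map h) = h (f i l)) →
      (∀ i l, 1 ≤ l.length → l.length ≤ r → (R' i (l.map h) ↔ R i l)) →
        ∀ φ : QF, φ.Voc F r → ∀ v : ℕ → α, (φ.Sat f' R' (fun x => h (v x)) ↔ φ.Sat f R v)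

/-- the prefix `∃…∃`: one element more -/
def T_EU : Prop := ∀ (F : ℕ → ℕ → Prop) (r b : ℕ) (φ : QF), (∀ i, ¬ F i 0) → φ.Vars b →
  φ.Voc F r → ∀ n, n ∈ Spec (List.replicate b false) φ → n + 1 ∈ Spec (List.replicate b false) φ

/-- the prefix `∀∃…∃`: disjoint unions -/
def T_AP : Prop := ∀ (F : ℕ → ℕ → Prop) (r b : ℕ) (φ : QF), (∀ i, ¬ F i 0) → φ.Vars (b + 1) →
  φ.Voc F r → ∀ n n', n ∈ Spec (true :: List.replicate b false) φ →
    n' ∈ Spec (true :: List.replicate b false) φ → n + n' ∈ Spec (true :: List.replicate b false) φ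

/-- structures with chosen witnesses, one direction -/
def T_NF : Prop := ∀ (i0 a b r : ℕ) (φ : QF), φ.Vars (a + 1 + b) → φ.Voc (UF i0) r → ∀ n,
  n ∈ Spec (List.replicate a false ++ true :: List.replicate b false) φ →
    0 < n ∧ ∃ m : Sk (Fin n), m.Wf a ∧ ∀ x, φ.Sat (m.F x) m.R (m.w x)

/-- structures with chosen witnesses, the other direction -/
def T_NG : Prop := ∀ (i0 a b r : ℕ) (φ : QF), φ.Vars (a + 1 + b) → φ.Voc (UF i0) r →
  ∀ (β : Type) [Finite β] [Nonempty β] (m : Sk β), m.Wf a → (∀ x, φ.Sat (m.F x) m.R (m.w x)) →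
    Nat.card β ∈ Spec (List.replicate a false ++ true :: List.replicate b false) φ

/-- what one element sees -/
def T_VW : Prop := ∀ (i0 K r : ℕ) (φ : QF), φ.Vars K → φ.Voc (UF i0) r → ∃ D J : ℕ,
  ∀ (a : ℕ) (α β : Type) (m : Sk α) (m' : Sk β) (x : α) (x' : β), See ⟨a, K, D, r, J⟩ m m' x x' →
    (φ.Sat (m.F x) m.R (m.w x) ↔ φ.Sat (m'.F x') m'.R (m'.w x'))

/-! ### copies of a set which is closed under preimages -/

/-- `κ` copies of `K0` -/
def T_CL : Prop := ∀ (P : Pr) (α : Type) [Finite α] (m : Sk α), P.a < P.K → m.Wf P.a →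
  ∀ K0 : Set α, Free P m K0 → ∀ κ : ℕ, ∃ (β : Type) (_ : Finite β) (m' : Sk β),
    Nat.card β = Nat.card α + κ * K0.ncard ∧ Step P m m'

/-! ### chains -/

/-- a run of good positions -/
def T_RN : Prop := ∀ (b M N : ℕ) (bad : Finset ℕ), bad.card ≤ b → (b + 1) * (M + 1) ≤ N →
  ∃ k, k + M < N ∧ ∀ s ≤ M, k + s ∉ bad

/-- an element which is not reached from the constants -/
def T_PC : Prop := ∀ (P : Pr) (M : ℕ) (α : Type) [Finite α] (m : Sk α), P.a < P.K → m.Wf P.a →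
  1 ≤ M → (∀ K0 : Set α, Free P m K0 → M < K0.ncard) →
    ∀ x : α, (∀ y, ∀ i < P.a, ∀ k, m.f^[k] (m.w y i) ≠ x) → ∃ e, Chain P m e M

/-- few elements have two preimages -/
def T_BD : Prop := ∀ (α : Type) [Finite α] (f : α → α) (a : ℕ) (c : ℕ → α),
  (∀ x : α, ∃ i < a, ∃ k, f^[k] (c i) = x) →
    {x | ∃ y z, y ≠ z ∧ f y = x ∧ f z = x}.ncard ≤ a

/-- all elements are reached from the constants -/
def T_OC : Prop := ∀ (P : Pr) (M : ℕ), ∃ N : ℕ, ∀ (α : Type) [Finite α] (m : Sk α), m.Wf P.a →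
  N ≤ Nat.card α → (∀ x : α, ∃ y, ∃ i < P.a, ∃ k, m.f^[k] (m.w y i) = x) → ∃ e, Chain P m e M

/-- a small set closed under preimages or a long chain -/
def T_CH : Prop := ∀ (P : Pr) (M : ℕ), P.a < P.K → 1 ≤ M → ∃ N : ℕ, ∀ (α : Type) [Finite α]
  (m : Sk α), m.Wf P.a → N ≤ Nat.card α →
    (∃ K0 : Set α, Free P m K0 ∧ K0.ncard ≤ M) ∨ ∃ e, Chain P m e M

/-! ### windows which look alike -/

/-- a triangle with one colour -/
def T_RM : Prop := ∀ c : ℕ, ∃ n : ℕ, ∀ col : ℕ → ℕ → ℕ, (∀ i j, i < j → j < n → col i j < c) →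
  ∃ i j k, i < j ∧ j < k ∧ k < n ∧ col i j = col i k ∧ col i k = col j k

/-- two windows which look alike -/
def T_PR : Prop := ∀ P : Pr, ∃ L : ℕ, ∀ (α : Type) (m : Sk α) (e : ℕ → α),
  ∃ p q, p + 6 * P.B < q ∧ q ≤ L ∧ Alike P m e p q

/-- a radius -/
def T_RD : Prop := ∀ (P : Pr) (α : Type) (m : Sk α) (e : ℕ → α) (M s : ℕ), P.a < P.K → m.Wf P.a →
  Chain P m e M → P.B + 1 ≤ s → s + P.B + 1 ≤ M → ∃ ρ, Rad P m e s ρ

/-- moving the elements of the chain near `e s` -/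
def T_HC : Prop := ∀ (P : Pr) (α : Type) (m : Sk α) (e : ℕ → α) (M ℓ s ρ : ℕ), P.a < P.K →
  m.Wf P.a → Chain P m e M → P.B + 1 ≤ s → s + P.B + 1 ≤ M → 2 * P.B < ℓ → Rad P m e s ρ →
    Function.Injective (hh e ℓ ρ s) ∧
    (∀ u, s ≤ u + ρ → u ≤ s + ρ → hh e ℓ ρ s (e u) = Sum.inr (u : ZMod ℓ)) ∧
    (∀ i < P.K, ∀ k < P.D, hh e ℓ ρ s (m.f (m.f^[k] (m.w (e s) i))) =
      ff m ℓ (hh e ℓ ρ s (m.f^[k] (m.w (e s) i)))) ∧
    ∀ z, m.Nam P z → hh e ℓ ρ s z = Sum.inl z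

/-- consistency -/
def T_CC : Prop := ∀ (P : Pr) (α : Type) (m : Sk α) (e : ℕ → α) (M p q s s' ρ ρ' j : ℕ)
  (l l' : List α), P.a < P.K → m.Wf P.a → Chain P m e M → p + 6 * P.B < q → q + 6 * P.B + 1 ≤ M →
    Alike P m e p q → p + 3 * P.B ≤ s → s < q + 3 * P.B → p + 3 * P.B ≤ s' → s' < q + 3 * P.B →
    Rad P m e s ρ → Rad P m e s' ρ' → j < P.J → 1 ≤ l.length → l.length ≤ P.r →
    (∀ z ∈ l, z ∈ m.T P (e s)) → (∀ z ∈ l', z ∈ m.T P (e s')) →
    l.map (hh e (q - p) ρ s) = l'.map (hh e (q - p) ρ' s') → (m.R j l ↔ m.R j l')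

/-- a new cycle -/
def T_AC : Prop := ∀ (P : Pr) (α : Type) [Finite α] (m : Sk α) (e : ℕ → α) (M p q : ℕ),
  P.a < P.K → m.Wf P.a → Chain P m e M → p + 6 * P.B < q → q + 6 * P.B + 1 ≤ M →
    Alike P m e p q → ∃ (β : Type) (_ : Finite β) (m' : Sk β), Nat.card β = Nat.card α + (q - p) ∧
      Step P m m' ∧ ∃ K0 : Set β, Free P m' K0 ∧ K0.ncard = q - p

/-! ### the prefix `∃…∃∀∃…∃` with one unary function -/

/-- the period -/
def T_PP : Prop := ∀ (i0 a b r : ℕ) (φ : QF), φ.Vars (a + 1 + b) → φ.Voc (UF i0) r →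
  ∃ p N : ℕ, 0 < p ∧ ∀ n, N ≤ n →
    n ∈ Spec (List.replicate a false ++ true :: List.replicate b false) φ →
      n + p ∈ Spec (List.replicate a false ++ true :: List.replicate b false) φ

/-- eventually periodic sets -/
def T_PE : Prop := ∀ (S : Set ℕ) (p N : ℕ), 0 < p → (∀ n, N ≤ n → n ∈ S → n + p ∈ S) → Periodic S

end Pool.Agent.H71.FX
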