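import Pool.Agent.H71.FX.Targets
import Pool.Agent.H71.FX.Targets2
import Pool.Agent.H71.PX.Targets2
import Pool.Agent.H71.PX.UN

/-!
# Prefix vocabulary classes: targets, third part
-/

set_option autoImplicit false

namespace Pool.Agent.H71.FX

open Pool.Agent.H8.PL Pool.Agent.H71.PF Pool.Agent.H69.Sp Pool.Agent.H8.JS

/-- more quantifiers -/
def T_EM : Prop := ∀ (ρ π : List Bool) (φ : QF), ρ.Sublist π → φ.Vars ρ.length →
  ∃ ψ : QF, ψ.Vars π.length ∧ (∀ F r, φ.Voc F r → ψ.Voc F r) ∧ Spec π ψ = Spec ρ φ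

/-- more symbols -/
def T_VM : Prop := ∀ (F F' : ℕ → ℕ → Prop) (r r' : ℕ) (φ : QF), (∀ i k, F i k → F' i k) → r ≤ r' →
  φ.Voc F r → φ.Voc F' r'

/-- the minimal prefixes -/
def T_LH : Prop := ∀ π : List Bool,
  ((∀ b, π ≠ List.replicate b false ∧ π ≠ true :: List.replicate b false) →
    [false, true].Sublist π ∨ [true, true].Sublist π) ∧
  ((∀ b, π ≠ List.replicate b false) →
    (∀ a b, π ≠ List.replicate a false ++ true :: List.replicate b false) → [true, true].Sublist π)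

/-- two unary symbols or one symbol of greater arity -/
def T_FW : Prop := ∀ F : ℕ → ℕ → Prop, ¬ Few F → (∀ i, ¬ F i 0) →
  (∃ i j, i ≠ j ∧ F i 1 ∧ F j 1) ∨ ∃ i k, 2 ≤ k ∧ F i k

/-- substitution of terms in a relational formula -/
def T_TX : Prop := ∀ (φ : PX.QF) (σ : ℕ → Tm), ∃ ψ : QF,
  (∀ k K, φ.Vars k → (∀ i < k, (σ i).Vars K) → ψ.Vars K) ∧
  (∀ F : ℕ → ℕ → Prop, (∀ i, (σ i).Voc F) → φ.Bin → ψ.Voc F 2) ∧
  ∀ (α : Type) (f : ℕ → List α → α) (R : ℕ → List α → Prop) (v : ℕ → α),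
    (ψ.Sat f R v ↔ φ.Sat R (fun i => (σ i).val f v))

/-- relational sentences -/
def T_RX : Prop := ∀ φ : PX.QF, ∃ ψ : QF, (∀ k, φ.Vars k → ψ.Vars k) ∧
  (∀ F : ℕ → ℕ → Prop, φ.Bin → ψ.Voc F 2) ∧ ∀ π, Spec π ψ = PX.Spec π φ

/-- sentences without function symbols -/
def T_XR : Prop := ∀ (F : ℕ → ℕ → Prop) (r : ℕ) (ψ : QF), (∀ i k, ¬ F i k) → ψ.Voc F r →
  ∃ φ : PX.QF, (∀ k, ψ.Vars k → φ.Vars k) ∧ (r ≤ 1 → φ.Una) ∧ ∀ π, PX.Spec π φ = Spec π ψ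

/-- the prefix `∀∀`, one unary function, binary relations -/
def T_AF : Prop := ∀ (Q : Type) [Finite Q] (U : UT Q) (Hh Vv : Q → Q → Prop) (i : ℕ), ∃ φ : QF,
  φ.Vars 2 ∧ φ.Voc (UF i) 2 ∧ ∀ n, (n ∈ Spec [true, true] φ ↔ 0 < n ∧ ∃ t, GridF U Hh Vv n n t)

/-- images of spectra -/
def T_AS : Prop := ∀ (S : Set ℕ) (a s : ℕ), 0 < a → 0 < s → IsSpectrum S →
  IsSpectrum ((fun m => a * m ^ s) '' S) ∧
    (IsSpectrum (posCompl ((fun m => a * m ^ s) '' S)) ↔ IsSpectrum (posCompl S))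

/-- one complete set -/
def T_NX : Prop := ∀ C : Set (Set ℕ), (∀ S, IsSpectrum S → ∃ a s : ℕ, 0 < a ∧ 0 < s ∧
  (fun m => a * m ^ s) '' S ∈ C) → ∃ X ∈ C, NEComplete X ∧ (lang X ∈ coNE ↔ NE = coNE) ∧
    (IsSpectrum (posCompl X) ↔ NE = coNE)

/-- eventually periodic sets are spectra -/
def T_PI : Prop := ∀ S : Set ℕ, Periodic S → (∀ n ∈ S, 0 < n) →
  IsSpectrum S ∧ IsSpectrum (posCompl S)

/-- two unary function symbols or one function symbol of greater arity -/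
def T_HF : Prop := ∀ (F : ℕ → ℕ → Prop) (ρ : List Bool), ¬ Few F → (∀ i, ¬ F i 0) →
  ρ = [false, true] ∨ ρ = [true, true] → ∀ S, IsSpectrum S → ∃ (ψ : QF) (a s : ℕ), ψ.Vars 2 ∧
    ψ.Voc F 0 ∧ 0 < a ∧ 0 < s ∧ Spec ρ ψ = (fun m => a * m ^ s) '' S

end Pool.Agent.H71.FX
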