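import Pool.Agent.H71.FX.Targets3

/-!
# Rows XR, LH
-/

set_option autoImplicit false

namespace Pool.Agent.H71.FX

open Pool.Agent.H71.PF

/-- the number of a variable -/
def vn : Tm → ℕ
  | .var x => x
  | .app _ _ => 0

/-- sentences without function symbols -/
def rel1 : QF → PX.QF
  | .rel i ts => .rel i (ts.map vn)
  | .eq s t => .eq (vn s) (vn t)
  | .neg φ => .neg (rel1 φ)
  | .and φ ψ => .and (rel1 φ) (rel1 ψ)

theorem vn_var {F : ℕ → ℕ → Prop} (hF : ∀ i k, ¬ F i k) (t : Tm) (h : t.Voc F) : t = .var (vn t) := by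
  cases t with
  | var x => rfl
  | app i ts => exact absurd h.1 (hF _ _)

theorem rel1_vars {F : ℕ → ℕ → Prop} (hF : ∀ i k, ¬ F i k) {r : ℕ} (k : ℕ) : ∀ ψ : QF,
    ψ.Voc F r → ψ.Vars k → (rel1 ψ).Vars k := by
  intro ψ
  induction ψ with
  | rel i ts =>
    intro hV h x hx
    obtain ⟨t, ht, rfl⟩ := List.mem_map.1 hx
    have h2 := h t ht
    rw [vn_var hF t (hV.2.2 t ht)] at h2
    exact h2
  | eq s t =>
    intro hV h
    obtain ⟨h2, h3⟩ := h
    rw [vn_var hF s hV.1] at h2
    rw [vn_var hF t hV.2] at h3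
    exact ⟨h2, h3⟩
  | neg φ ih => exact fun hV h => ih hV h
  | and φ ψ ih1 ih2 => exact fun hV h => ⟨ih1 hV.1 h.1, ih2 hV.2 h.2⟩

theorem rel1_una {F : ℕ → ℕ → Prop} {r : ℕ} (hr : r ≤ 1) : ∀ ψ : QF,
    ψ.Voc F r → (rel1 ψ).Una := by
  intro ψ
  induction ψ with
  | rel i ts =>
    intro hV
    change (ts.map vn).length = 1
    rw [List.length_map]
    have h3 := hV.1
    have h4 := hV.2.1
    omega
  | eq s t => exact fun _ => trivial
  | neg φ ih => exact fun hV => ih hV
  | and φ ψ ih1 ih2 => exact fun hV => ⟨ih1 hV.1, ih2 hV.2⟩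

theorem rel1_sat {F : ℕ → ℕ → Prop} (hF : ∀ i k, ¬ F i k) {r : ℕ} {α : Type}
    (f : ℕ → List α → α) (R : ℕ → List α → Prop) (v : ℕ → α) : ∀ ψ : QF,
    ψ.Voc F r → ((rel1 ψ).Sat R v ↔ ψ.Sat f R v) := by
  have hv : ∀ t : Tm, t.Voc F → t.val f v = v (vn t) := by
    intro t ht
    conv_lhs => rw [vn_var hF t ht]
    rfl
  intro ψ
  induction ψ with
  | rel i ts =>
    intro hV
    change R i ((ts.map vn).map v) ↔ R i (ts.map (Tm.val f v))
    rw [List.map_map]
    have e : ts.map (v ∘ vn) = ts.map (Tm.val f v) :=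
      List.map_congr_left fun t ht => (hv t (hV.2.2 t ht)).symm
    rw [e]
  | eq s t =>
    intro hV
    change v (vn s) = v (vn t) ↔ s.val f v = t.val f v
    rw [hv s hV.1, hv t hV.2]
  | neg φ ih => exact fun hV => not_congr (ih hV)
  | and φ ψ ih1 ih2 => exact fun hV => and_congr (ih1 hV.1) (ih2 hV.2)

theorem pf_XR : T_XR := by
  intro F r ψ hF hV
  have hp : ∀ (α : Type) (f : ℕ → List α → α) (R : ℕ → List α → Prop) (π : List Bool) (k : ℕ)
      (v : ℕ → α), PX.Pre R (rel1 ψ) π k v ↔ Pre f R ψ π k v := by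
    intro α f R π
    induction π with
    | nil => exact fun k v => rel1_sat hF f R v ψ hV
    | cons b π ih =>
      cases b
      · exact fun k v => exists_congr fun a => ih _ _
      · exact fun k v => forall_congr' fun a => ih _ _
  refine ⟨rel1 ψ, fun k h => rel1_vars hF k ψ hV h, fun hr => rel1_una hr ψ hV, fun π => ?_⟩
  ext n
  constructor
  · rintro ⟨h0, R, h⟩
    exact ⟨h0, fun _ _ => ⟨0, h0⟩, R, fun v => (hp _ _ R π 0 v).1 (h v)⟩
  · rintro ⟨h0, f, R, h⟩
    exact ⟨h0, R, fun v => (hp _ f R π 0 v).2 (h v)⟩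

theorem sub_true : ∀ l : List Bool, (∀ b, l ≠ List.replicate b false) → [true].Sublist l := by
  intro l h
  rw [List.singleton_sublist]
  by_contra h1
  refine h l.length (List.eq_replicate_iff.2 ⟨rfl, fun b hb => ?_⟩)
  cases b
  · rfl
  · exact absurd hb h1

theorem pf_LH : T_LH := by
  intro π
  refine ⟨fun h => ?_, ?_⟩
  · cases π with
    | nil => exact absurd rfl (h 0).1
    | cons b l =>
      cases b with
      | false =>
        exact Or.inl ((sub_true l fun b hb => (h (b + 1)).1 (by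
          rw [hb]
          rfl)).cons_cons false)
      | true =>
        exact Or.inr ((sub_true l fun b hb => (h b).2 (by rw [hb])).cons_cons true)
  · induction π with
    | nil => exact fun h _ => absurd rfl (h 0)
    | cons b l ih =>
      intro h1 h2
      cases b with
      | false =>
        refine (ih (fun b hb => h1 (b + 1) (by
          rw [hb]
          rfl)) (fun a b hb => h2 (a + 1) b (by
          rw [hb]
          rfl))).cons false
      | true =>
        exact (sub_true l fun b hb => h2 0 b (by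
          rw [hb]
          rfl)).cons_cons true

end Pool.Agent.H71.FX
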